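import Pool.Agent.KS6_76.RVVM.Main

/-!
# Reaching the man-optimal stable matching by the Roth-Vande Vate mechanism is NP-hard

`REACH` is NP-hard already for the inputs in which `M₀` is perfect, every man has his first choice
in `M` (so that `M` is the man-optimal stable matching) and every woman one of her first three
choices in `M`.  In particular it is NP-hard to decide, given the lists and `M₀`, whether some
execution stops at the man-optimal stable matching.
-/

namespace Pool.Agent.Results.MP_0acc7f_lc.ManOptimalTarget

open Pool.Agent.NPC Pool.Agent.H654R3.RVV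

/-- (1) Every language in `NP` has a polynomial-time reduction to `REACH` all of whose values are
inputs as required, with `M₀` perfect and `M` the man-optimal stable matching, in which every man
has his first choice and every woman one of her first three choices.
(2) `REACH` restricted to the inputs with these properties is NP-hard.
(3) It is NP-hard to decide whether some execution started at `M₀` stops at the man-optimal stable
matching.
(4) If one of these two problems is in `P` then `P = NP`. -/
theorem result :
    (∀ L : Set (List Bool), InNP L → ∃ f : List Bool → Inp,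
      PolyTime (fun x => bits (f x)) ∧
      (∀ x, Legal (f x) ∧ PerfectL (f x).1 (f x).2.1 ∧ MenFirst (f x).1 (f x).2.2 ∧
        WomenThree (f x).1 (f x).2.2 ∧ ManOptimal (market (f x).1) (ofList (f x).2.2)) ∧
      ∀ x, x ∈ L ↔ Reaches (market (f x).1) (ofList (f x).2.1) (ofList (f x).2.2)) ∧
    NPHardP (fun x : Inp => REACH x ∧ PerfectL x.1 x.2.1 ∧ MenFirst x.1 x.2.2 ∧
      WomenThree x.1 x.2.2 ∧ ManOptimal (market x.1) (ofList x.2.2)) ∧
    NPHardP REACHOpt ∧
    (InP (lang (fun x : Inp => REACH x ∧ PerfectL x.1 x.2.1 ∧ MenFirst x.1 x.2.2 ∧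
      WomenThree x.1 x.2.2 ∧ ManOptimal (market x.1) (ofList x.2.2))) ∨ InP (lang REACHOpt) →
      ∀ L : Set (List Bool), InNP L → InP L) := by
  have h2 : HardI (fun x : Inp => REACH x ∧ PerfectL x.1 x.2.1 ∧ MenFirst x.1 x.2.2 ∧
      WomenThree x.1 x.2.2 ∧ ManOptimal (market x.1) (ofList x.2.2)) :=
    hardI_SAT.trans inst_poly (fun φ => ⟨fun h => ⟨⟨legal φ, (reaches_iff φ).2 h⟩,
      (restr_inst φ).2⟩, fun h => (reaches_iff φ).1 h.1.2⟩)
  refine ⟨?_, h2.toNPHardP, hardI_opt.toNPHardP, ?_⟩
  · intro L hL
    obtain ⟨f, h1, h2, h3⟩ := hardPr_restr L hL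
    exact ⟨f, PC.toPolyTime h1, h2, h3⟩
  · rintro (h | h)
    · exact NPHard.collapse h2.toNPHardP h
    · exact NPHard.collapse hardI_opt.toNPHardP h

end Pool.Agent.Results.MP_0acc7f_lc.ManOptimalTarget
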